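import Pool.Agent.V7H47.LB.Spec

/-! NINE -/
set_option autoImplicit false
open Real Set MeasureTheory
namespace Pool.Agent.V7H24.LB
open Pool.Agent.V7H47.LB
open Pool.Agent.V7H47.TC (Plane)

lemma D_pol (t d s : ℝ) : D t (pol d s) = d * cos (s - t) := by
  simp only [D, pol]; simp [cos_sub]; ring

lemma ea_eq (t d x : ℝ) : ea t (d * cos x) (d * sin x) = pol d (t + x) := by
  ext i; fin_cases i <;> simp [ea, pol, cos_add, sin_add] <;> ring

lemma pol_per (d s : ℝ) : pol d (s + 2 * π) = pol d s := by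
  simp [pol]

lemma cos_win {x y : ℝ} (h0 : 0 ≤ y) (h1 : y ≤ x) (h2 : x ≤ 2 * π - y) :
    cos x ≤ cos y := by
  rcases le_total x π with h | h
  · exact cos_le_cos_of_nonneg_of_le_pi h0 h h1
  · rw [← cos_two_pi_sub x]
    exact cos_le_cos_of_nonneg_of_le_pi h0 (by linarith) (by linarith)

lemma cos_win' {x y : ℝ} (h0 : 0 ≤ y) (h1 : y < x) (h2 : x < 2 * π - y) :
    cos x < cos y := by
  rcases le_total x π with h | h
  · exact cos_lt_cos_of_nonneg_of_le_pi h0 h h1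
  · rw [← cos_two_pi_sub x]
    exact cos_lt_cos_of_nonneg_of_le_pi h0 (by linarith) (by linarith)

lemma vert {r γ η p t : ℝ} (hr : 0 < r) (g0 : 0 ≤ γ) (g1 : γ < π / 2) (e0 : 0 ≤ η)
    (e1 : η < π / 2) (h1 : t + η ≤ p - γ) (h2 : p + γ ≤ t - η + 2 * π) :
    D t (pol (r / cos γ) p) ≤ r * cos η ∧
    (0 < γ → 0 < η → D t (pol (r / cos γ) p) < r * cos η) ∧
    (t + η < p - γ → p + γ < t - η + 2 * π → D t (pol (r / cos γ) p) < r * cos η) := by
  rw [D_pol]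
  have hpi := pi_pos
  have hc : 0 < cos γ := cos_pos_of_mem_Ioo ⟨by linarith, g1⟩
  have hs : 0 ≤ sin γ := sin_nonneg_of_nonneg_of_le_pi g0 (by linarith)
  have hs' : 0 ≤ sin η := sin_nonneg_of_nonneg_of_le_pi e0 (by linarith)
  have hd : 0 < r / cos γ := div_pos hr hc
  have hA : r / cos γ * cos (p - t) ≤ r / cos γ * cos (η + γ) := by
    apply mul_le_mul_of_nonneg_left _ hd.le
    exact cos_win (by linarith) (by linarith) (by linarith)
  have hB : r / cos γ * cos (η + γ) = r * cos η - r / cos γ * (sin η * sin γ) := by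
    rw [cos_add]; field_simp
  refine ⟨?_, ?_, ?_⟩
  · have := mul_nonneg hd.le (mul_nonneg hs' hs); linarith
  · intro h3 h4
    have h5 : 0 < sin γ := sin_pos_of_pos_of_lt_pi h3 (by linarith)
    have h6 : 0 < sin η := sin_pos_of_pos_of_lt_pi h4 (by linarith)
    have := mul_pos hd (mul_pos h6 h5); linarith
  · intro h3 h4
    have h7 : r / cos γ * cos (p - t) < r / cos γ * cos (η + γ) := by
      apply mul_lt_mul_of_pos_left _ hd
      exact cos_win' (by linarith) (by linarith) (by linarith)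
    have := mul_nonneg hd.le (mul_nonneg hs' hs); linarith

/-- indices -/
def e (i : ℕ) : ℕ := 2 * (i / 3) + min (i % 3) 1
def f (i : ℕ) : ℕ := 2 * (i / 3) + i % 3
def gA (i : ℕ) : ℕ := 2 * (i / 3) + (i % 3) / 2
def hA (i : ℕ) : ℕ := 2 * (i / 3) + min (i % 3) 1
def gB (i : ℕ) : ℕ := 2 * (i / 3) + i % 3
def hB (i : ℕ) : ℕ := 2 * (i / 3) + max (i % 3) 1

/-- strict step -/
def st (x n m : ℕ) : Prop := n < m ∧ (n + 1 < m ∨ n % 2 = 0 ∨ n = x)
instance (x n m : ℕ) : Decidable (st x n m) := by unfold st; infer_instance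

def win (i g h : ℕ) : Prop := (f i ≤ g ∧ h ≤ e i + 6) ∨ (h ≤ e i ∧ f i ≤ g + 6)
instance (i g h : ℕ) : Decidable (win i g h) := by unfold win; infer_instance

def sw (x i g : ℕ) : Prop := (st x (f i) g ∧ st x g (e i + 6)) ∨ (st x g (e i) ∧ st x (f i) (g + 6))
instance (x i g : ℕ) : Decidable (sw x i g) := by unfold sw; infer_instance

lemma winA : ∀ i < 9, ∀ j < 9, win i (gA j) (hA j) := by decide
lemma winB : ∀ i < 9, ∀ j < 9, win i (gB j) (hB j) := by decide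

/-- classification of pairs -/
def c1 (i j : ℕ) : Prop := (i % 3 = 2 ∧ j % 3 = 0) ∨ (i % 3 = 2 ∧ j % 3 = 1)
def c2 (i j : ℕ) : Prop := (gA j = hA j ∧ sw 0 i (gA j)) ∨ (gB j = hB j ∧ sw 0 i (gB j))
def c3 (i j : ℕ) : Prop :=
  j % 3 = 2 ∧ (sw (2 * (j / 3) + 1) i (gA j) ∨ sw (2 * (j / 3) + 1) i (gB j))
def c4 (i j : ℕ) : Prop :=
  i % 3 = 1 ∧ j % 3 = 0 ∧ sw (e i) i (gA j) ∧ (e j = e i + 1 ∨ e j + 6 = e i + 1)
def c5 (i j : ℕ) : Prop :=
  i % 3 = 0 ∧ j % 3 = 1 ∧ sw (e j) i (gB j) ∧ (e i = e j + 1 ∨ e i + 6 = e j + 1)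
instance (i j : ℕ) : Decidable (c1 i j) := by unfold c1; infer_instance
instance (i j : ℕ) : Decidable (c2 i j) := by unfold c2; infer_instance
instance (i j : ℕ) : Decidable (c3 i j) := by unfold c3; infer_instance
instance (i j : ℕ) : Decidable (c4 i j) := by unfold c4; infer_instance
instance (i j : ℕ) : Decidable (c5 i j) := by unfold c5; infer_instance

lemma cls : ∀ i < 9, ∀ j < 9, i ≠ j → c1 i j ∨ c2 i j ∨ c3 i j ∨ c4 i j ∨ c5 i j := by
  decide

section core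
variable (w : ℕ → ℝ)

/-- direction and half angle of edge `i` -/
noncomputable def tt (i : ℕ) : ℝ := (w (e i) + w (f i)) / 2
noncomputable def et (i : ℕ) : ℝ := (w (f i) - w (e i)) / 2
/-- vertex with window `g, h` -/
noncomputable def vx (r : ℝ) (g h : ℕ) : Plane :=
  pol (r / cos ((w h - w g) / 2)) ((w g + w h) / 2)
noncomputable def al (r : ℝ) (i : ℕ) : ℝ :=
  r / cos ((w (hA i) - w (gA i)) / 2) * sin ((w (gA i) + w (hA i)) / 2 - tt w i)
noncomputable def be (r : ℝ) (i : ℕ) : ℝ :=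
  r / cos ((w (hB i) - w (gB i)) / 2) * sin ((w (gB i) + w (hB i)) / 2 - tt w i)

/-- the sequence of angles -/
structure Good : Prop where
  per : ∀ n, w (n + 6) = w n + 2 * π
  le : ∀ n, w n ≤ w (n + 1)
  lt : ∀ n, n % 2 = 0 → w n < w (n + 1)
  gap : ∀ n, w (n + 1) < w n + π

variable {w}

lemma Good.mono (G : Good w) : Monotone w := monotone_nat_of_le_succ G.le

lemma Good.st_lt (G : Good w) {x n m : ℕ} (hx : w x < w (x + 1)) (h : st x n m) : w n < w m := by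
  obtain ⟨h1, h2 | h2 | h2⟩ := h
  · by_cases hn : n % 2 = 0
    · exact (G.lt n hn).trans_le (G.mono (by omega))
    · calc w n ≤ w (n + 1) := G.le n
        _ < w (n + 1 + 1) := G.lt (n + 1) (by omega)
        _ ≤ w m := G.mono (by omega)
  · exact (G.lt n h2).trans_le (G.mono (by omega))
  · subst h2; exact hx.trans_le (G.mono (by omega))

lemma et_nonneg (G : Good w) (i : ℕ) : 0 ≤ et w i := by
  unfold et
  have := G.mono (show e i ≤ f i by unfold e f; omega)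
  linarith

lemma et_lt (G : Good w) (i : ℕ) : et w i < π / 2 := by
  unfold et
  have hpi := pi_pos
  have h : f i = e i ∨ f i = e i + 1 := by unfold e f; omega
  rcases h with h | h <;> rw [h]
  · linarith
  · have := G.gap (e i); linarith

lemma vx_per (G : Good w) (r : ℝ) (g h : ℕ) : vx w r (g + 6) (h + 6) = vx w r g h := by
  unfold vx
  rw [G.per, G.per, ← pol_per _ ((w g + w h) / 2)]
  congr 2 <;> ring_nf

/-- main comparison -/
lemma cmp (G : Good w) {r : ℝ} (hr : 0 < r) {i g h : ℕ} (hgh : g = h ∨ h = g + 1)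
    (hw : win i g h) :
    D (tt w i) (vx w r g h) ≤ r * cos (et w i) ∧
    (w g < w h → 0 < et w i → D (tt w i) (vx w r g h) < r * cos (et w i)) ∧
    (∀ x, w x < w (x + 1) → g = h → sw x i g →
      D (tt w i) (vx w r g h) < r * cos (et w i)) := by
  have hpi := pi_pos
  have g0 : 0 ≤ (w h - w g) / 2 := by
    have := G.mono (show g ≤ h by omega); linarith
  have g1 : (w h - w g) / 2 < π / 2 := by
    rcases hgh with h | h
    · subst h; linarith
    · subst h; have := G.gap g; linarith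
  have e0 := et_nonneg G i
  have e1 := et_lt G i
  have hts : tt w i + et w i = w (f i) := by unfold tt et; ring
  have htd : tt w i - et w i = w (e i) := by unfold tt et; ring
  have key1 : f i ≤ g → h ≤ e i + 6 → 
      tt w i + et w i ≤ (w g + w h) / 2 - (w h - w g) / 2 ∧
      (w g + w h) / 2 + (w h - w g) / 2 ≤ tt w i - et w i + 2 * π := by
    intro a b
    have h1 := G.mono a
    have h2 := G.mono b
    rw [G.per] at h2
    constructor <;> linarith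
  have key2 : h ≤ e i → f i ≤ g + 6 → 
      tt w i + et w i ≤ (w (g + 6) + w (h + 6)) / 2 - (w (h + 6) - w (g + 6)) / 2 ∧
      (w (g + 6) + w (h + 6)) / 2 + (w (h + 6) - w (g + 6)) / 2 ≤ tt w i - et w i + 2 * π := by
    intro a b
    have h1 := G.mono a
    have h2 := G.mono b
    have h3 := G.per g
    have h4 := G.per h
    constructor <;> linarith
  have hper : (w (h + 6) - w (g + 6)) / 2 = (w h - w g) / 2 := by rw [G.per, G.per]; ring
  refine ⟨?_, ?_, ?_⟩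
  · rcases hw with ⟨a, b⟩ | ⟨a, b⟩
    · obtain ⟨k1, k2⟩ := key1 a b
      exact (vert hr g0 g1 e0 e1 k1 k2).1
    · obtain ⟨k1, k2⟩ := key2 a b
      rw [← vx_per G]
      exact (vert hr (by rw [hper]; exact g0) (by rw [hper]; exact g1) e0 e1 k1 k2).1
  · intro p1 p2
    rcases hw with ⟨a, b⟩ | ⟨a, b⟩
    · obtain ⟨k1, k2⟩ := key1 a b
      exact (vert hr g0 g1 e0 e1 k1 k2).2.1 (by linarith) p2
    · obtain ⟨k1, k2⟩ := key2 a b
      rw [← vx_per G]
      exact (vert hr (by rw [hper]; exact g0) (by rw [hper]; exact g1) e0 e1 k1 k2).2.1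
        (by rw [hper]; linarith) p2
  · intro x hx hgh' hs
    subst hgh'
    rcases hs with ⟨a, b⟩ | ⟨a, b⟩
    · have a' := G.st_lt hx a
      have b' := G.st_lt hx b
      rw [G.per] at b'
      obtain ⟨k1, k2⟩ := key1 a.1.le b.1.le
      exact (vert hr g0 g1 e0 e1 k1 k2).2.2 (by linarith) (by linarith)
    · have a' := G.st_lt hx a
      have b' := G.st_lt hx b
      have h3 := G.per g
      obtain ⟨k1, k2⟩ := key2 a.1.le b.1.le
      rw [← vx_per G]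
      exact (vert hr (by rw [hper]; exact g0) (by rw [hper]; exact g1) e0 e1 k1 k2).2.2
        (by linarith) (by linarith)

lemma d0 (r : ℝ) {i : ℕ} (h : i % 3 = 0) : et w i = 0 ∧ tt w i = w (2 * (i / 3)) ∧
    al w r i = 0 ∧ be w r i = r / cos ((w (2 * (i / 3) + 1) - w (2 * (i / 3))) / 2) *
      sin ((w (2 * (i / 3) + 1) - w (2 * (i / 3))) / 2) := by
  have h1 : e i = 2 * (i / 3) := by unfold e; omega
  have h2 : f i = 2 * (i / 3) := by unfold f; omega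
  have h3 : gA i = 2 * (i / 3) := by unfold gA; omega
  have h4 : hA i = 2 * (i / 3) := by unfold hA; omega
  have h5 : gB i = 2 * (i / 3) := by unfold gB; omega
  have h6 : hB i = 2 * (i / 3) + 1 := by unfold hB; omega
  have h7 : tt w i = w (2 * (i / 3)) := by unfold tt; rw [h1, h2]; ring
  refine ⟨by unfold et; rw [h1, h2]; ring, h7, ?_, ?_⟩
  · unfold al; rw [h7, h3, h4]; simp
  · unfold be; rw [h7, h5, h6]; congr 2; ring

lemma d1 (r : ℝ) {i : ℕ} (h : i % 3 = 1) : et w i = 0 ∧ tt w i = w (2 * (i / 3) + 1) ∧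
    be w r i = 0 ∧ al w r i = -(r / cos ((w (2 * (i / 3) + 1) - w (2 * (i / 3))) / 2) *
      sin ((w (2 * (i / 3) + 1) - w (2 * (i / 3))) / 2)) := by
  have h1 : e i = 2 * (i / 3) + 1 := by unfold e; omega
  have h2 : f i = 2 * (i / 3) + 1 := by unfold f; omega
  have h3 : gA i = 2 * (i / 3) := by unfold gA; omega
  have h4 : hA i = 2 * (i / 3) + 1 := by unfold hA; omega
  have h5 : gB i = 2 * (i / 3) + 1 := by unfold gB; omega
  have h6 : hB i = 2 * (i / 3) + 1 := by unfold hB; omega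
  have h7 : tt w i = w (2 * (i / 3) + 1) := by unfold tt; rw [h1, h2]; ring
  refine ⟨by unfold et; rw [h1, h2]; ring, h7, ?_, ?_⟩
  · unfold be; rw [h7, h5, h6]; simp
  · unfold al; rw [h7, h3, h4, ← mul_neg, ← sin_neg]; congr 2; ring

lemma d2 (r : ℝ) {i : ℕ} (h : i % 3 = 2) :
    et w i = (w (2 * (i / 3) + 2) - w (2 * (i / 3) + 1)) / 2 ∧
    be w r i = r * sin (et w i) ∧ al w r i = -(r * sin (et w i)) := by
  have h1 : e i = 2 * (i / 3) + 1 := by unfold e; omega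
  have h2 : f i = 2 * (i / 3) + 2 := by unfold f; omega
  have h3 : gA i = 2 * (i / 3) + 1 := by unfold gA; omega
  have h4 : hA i = 2 * (i / 3) + 1 := by unfold hA; omega
  have h5 : gB i = 2 * (i / 3) + 2 := by unfold gB; omega
  have h6 : hB i = 2 * (i / 3) + 2 := by unfold hB; omega
  refine ⟨by unfold et; rw [h1, h2], ?_, ?_⟩
  · unfold be tt et; rw [h1, h2, h5, h6]; simp; left; congr 1; ring
  · unfold al tt et; rw [h1, h2, h3, h4]
    have : (w (2 * (i / 3) + 1) + w (2 * (i / 3) + 1)) / 2 -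
        (w (2 * (i / 3) + 1) + w (2 * (i / 3) + 2)) / 2 =
        -((w (2 * (i / 3) + 2) - w (2 * (i / 3) + 1)) / 2) := by ring
    rw [this, sin_neg]; simp

lemma cpos (G : Good w) {g h : ℕ} (hgh : g = h ∨ h = g + 1) : 0 < cos ((w h - w g) / 2) := by
  have hpi := pi_pos
  rcases hgh with h | h
  · subst h; simp
  · subst h
    have := G.gap g
    have := G.le g
    exact cos_pos_of_mem_Ioo ⟨by linarith, by linarith⟩

lemma endA (G : Good w) (r : ℝ) (i : ℕ) :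
    ea (tt w i) (r * cos (et w i)) (al w r i) = vx w r (gA i) (hA i) := by
  have hc : r * cos (et w i) = r / cos ((w (hA i) - w (gA i)) / 2) *
      cos ((w (gA i) + w (hA i)) / 2 - tt w i) := by
    have hp := cpos G (g := gA i) (h := hA i) (by unfold gA hA; omega)
    rcases (show i % 3 = 0 ∨ i % 3 = 1 ∨ i % 3 = 2 by omega) with h | h | h
    · have h3 : gA i = 2 * (i / 3) := by unfold gA; omega
      have h4 : hA i = 2 * (i / 3) := by unfold hA; omega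
      rw [(d0 r h).1, (d0 r h).2.1, h3, h4]; simp
    · have h3 : gA i = 2 * (i / 3) := by unfold gA; omega
      have h4 : hA i = 2 * (i / 3) + 1 := by unfold hA; omega
      rw [h3, h4] at hp ⊢
      rw [(d1 r h).1, (d1 r h).2.1]
      have : (w (2 * (i / 3)) + w (2 * (i / 3) + 1)) / 2 - w (2 * (i / 3) + 1) =
        -((w (2 * (i / 3) + 1) - w (2 * (i / 3))) / 2) := by ring
      rw [this, cos_neg]
      field_simp
      simp
    · have h1 : e i = 2 * (i / 3) + 1 := by unfold e; omega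
      have h2 : f i = 2 * (i / 3) + 2 := by unfold f; omega
      have h3 : gA i = 2 * (i / 3) + 1 := by unfold gA; omega
      have h4 : hA i = 2 * (i / 3) + 1 := by unfold hA; omega
      unfold tt et
      rw [h1, h2, h3, h4]
      have : (w (2 * (i / 3) + 1) + w (2 * (i / 3) + 1)) / 2 -
        (w (2 * (i / 3) + 1) + w (2 * (i / 3) + 2)) / 2 =
        -((w (2 * (i / 3) + 2) - w (2 * (i / 3) + 1)) / 2) := by ring
      rw [this, cos_neg]; simp
  rw [hc]; unfold al; rw [ea_eq]; unfold vx; congr 1; ring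

lemma endB (G : Good w) (r : ℝ) (i : ℕ) :
    ea (tt w i) (r * cos (et w i)) (be w r i) = vx w r (gB i) (hB i) := by
  have hc : r * cos (et w i) = r / cos ((w (hB i) - w (gB i)) / 2) *
      cos ((w (gB i) + w (hB i)) / 2 - tt w i) := by
    have hp := cpos G (g := gB i) (h := hB i) (by unfold gB hB; omega)
    rcases (show i % 3 = 0 ∨ i % 3 = 1 ∨ i % 3 = 2 by omega) with h | h | h
    · have h3 : gB i = 2 * (i / 3) := by unfold gB; omega
      have h4 : hB i = 2 * (i / 3) + 1 := by unfold hB; omega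
      rw [h3, h4] at hp ⊢
      rw [(d0 r h).1, (d0 r h).2.1]
      have : (w (2 * (i / 3)) + w (2 * (i / 3) + 1)) / 2 - w (2 * (i / 3)) =
        ((w (2 * (i / 3) + 1) - w (2 * (i / 3))) / 2) := by ring
      rw [this]
      field_simp
      simp
    · have h3 : gB i = 2 * (i / 3) + 1 := by unfold gB; omega
      have h4 : hB i = 2 * (i / 3) + 1 := by unfold hB; omega
      rw [(d1 r h).1, (d1 r h).2.1, h3, h4]; simp
    · have h1 : e i = 2 * (i / 3) + 1 := by unfold e; omega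
      have h2 : f i = 2 * (i / 3) + 2 := by unfold f; omega
      have h3 : gB i = 2 * (i / 3) + 2 := by unfold gB; omega
      have h4 : hB i = 2 * (i / 3) + 2 := by unfold hB; omega
      unfold tt et
      rw [h1, h2, h3, h4]
      have : (w (2 * (i / 3) + 2) + w (2 * (i / 3) + 2)) / 2 -
        (w (2 * (i / 3) + 1) + w (2 * (i / 3) + 2)) / 2 =
        ((w (2 * (i / 3) + 2) - w (2 * (i / 3) + 1)) / 2) := by ring
      rw [this]; simp
  rw [hc]; unfold be; rw [ea_eq]; unfold vx; congr 1; ring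

lemma al_le_be (G : Good w) {r : ℝ} (hr : 0 < r) (i : ℕ) : al w r i ≤ be w r i := by
  have hpi := pi_pos
  have hs : 0 ≤ r / cos ((w (2 * (i / 3) + 1) - w (2 * (i / 3))) / 2) *
      sin ((w (2 * (i / 3) + 1) - w (2 * (i / 3))) / 2) := by
    have h1 := G.gap (2 * (i / 3))
    have h2 := G.le (2 * (i / 3))
    exact mul_nonneg (div_pos hr (cpos G (Or.inr rfl))).le
      (sin_nonneg_of_nonneg_of_le_pi (by linarith) (by linarith))
  rcases (show i % 3 = 0 ∨ i % 3 = 1 ∨ i % 3 = 2 by omega) with h | h | h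
  · rw [(d0 r h).2.2.1, (d0 r h).2.2.2]; exact hs
  · rw [(d1 r h).2.2.1, (d1 r h).2.2.2]; linarith
  · rw [(d2 r h).2.1, (d2 r h).2.2]
    have : 0 ≤ sin (et w i) := sin_nonneg_of_nonneg_of_le_pi (et_nonneg G i)
      (by have := et_lt G i; linarith)
    have := mul_nonneg hr.le this
    linarith

lemma et_pos (G : Good w) {r : ℝ} {i : ℕ} (h : i % 3 = 2) (hlt : al w r i < be w r i) :
    0 < et w i := by
  rcases (et_nonneg G i).eq_or_lt with h0 | h0
  · exfalso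
    rw [(d2 r h).2.1, (d2 r h).2.2, ← h0] at hlt
    simp at hlt
  · exact h0

lemma pol_mem {K : Set Plane} {r : ℝ} (hr : 0 < r) (hBall : Metric.closedBall 0 r ⊆ K) (s : ℝ) :
    pol r s ∈ K := by
  apply hBall
  rw [mem_closedBall_zero_iff, EuclideanSpace.norm_eq]
  simp only [Fin.sum_univ_two, pol, Real.norm_eq_abs, sq_abs]
  apply Real.sqrt_le_iff.2 ⟨hr.le, _⟩
  simp
  nlinarith [sin_sq_add_cos_sq s]

lemma vx_mem (G : Good w) {K : Set Plane} {r : ℝ} (hr : 0 < r) (hBall : Metric.closedBall 0 r ⊆ K)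
    (hP : ∀ k < 3, vx w r (2 * k) (2 * k + 1) ∈ K) {g h : ℕ}
    (hgh : g = h ∨ ∃ k < 3, g = 2 * k ∧ h = 2 * k + 1) : vx w r g h ∈ K := by
  rcases hgh with h | ⟨k, hk, h1, h2⟩
  · subst h
    unfold vx
    have : (w g + w g) / 2 = w g := by ring
    rw [this]
    simpa using pol_mem hr hBall (w g)
  · rw [h1, h2]; exact hP k hk

lemma pairs (G : Good w) {r : ℝ} (hr : 0 < r) (F : ℝ × ℝ → Plane) {a b : ℕ} (ha : a < 9)
    (hb : b < 9) (hab : a ≠ b) (hna : al w r a < be w r a) (hnb : al w r b < be w r b) :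
    D (tt w a) (vx w r (gA b) (hA b)) < r * cos (et w a) ∨
    D (tt w a) (vx w r (gB b) (hB b)) < r * cos (et w a) ∨
    (cos (tt w a) = cos (tt w b) ∧ sin (tt w a) = sin (tt w b) ∧
      F (cos (tt w a), sin (tt w a)) = F (cos (tt w b), sin (tt w b)) ∧
      (be w r a ≤ al w r b ∨ be w r b ≤ al w r a)) := by
  have cA := cmp G hr (i := a) (g := gA b) (h := hA b) (by unfold gA hA; omega) (winA a ha b hb)
  have cB := cmp G hr (i := a) (g := gB b) (h := hB b) (by unfold gB hB; omega) (winB a ha b hb)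
  rcases cls a ha b hb hab with h | h | h | h | h
  · rcases h with ⟨h1, h2⟩ | ⟨h1, h2⟩
    · right; left
      refine cB.2.1 ?_ (et_pos G h1 hna)
      have q1 : gB b = 2 * (b / 3) := by unfold gB; omega
      have q2 : hB b = 2 * (b / 3) + 1 := by unfold hB; omega
      rw [q1, q2]; exact G.lt _ (by omega)
    · left
      refine cA.2.1 ?_ (et_pos G h1 hna)
      have q1 : gA b = 2 * (b / 3) := by unfold gA; omega
      have q2 : hA b = 2 * (b / 3) + 1 := by unfold hA; omega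
      rw [q1, q2]; exact G.lt _ (by omega)
  · rcases h with ⟨h1, h2⟩ | ⟨h1, h2⟩
    · left; exact cA.2.2 0 (G.lt 0 rfl) h1 h2
    · right; left; exact cB.2.2 0 (G.lt 0 rfl) h1 h2
  · obtain ⟨h1, h2⟩ := h
    have hx : w (2 * (b / 3) + 1) < w (2 * (b / 3) + 1 + 1) := by
      have := et_pos G h1 hnb
      rw [(d2 (w := w) r h1).1] at this
      linarith
    rcases h2 with h2 | h2
    · left; exact cA.2.2 _ hx (by unfold gA hA; omega) h2
    · right; left; exact cB.2.2 _ hx (by unfold gB hB; omega) h2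
  · obtain ⟨h1, h2, h3, h4⟩ := h
    rcases (G.le (e a)).lt_or_eq with hx | hx
    · left; exact cA.2.2 _ hx (by unfold gA hA; omega) h3
    · right; right
      have q1 : e a = 2 * (a / 3) + 1 := by unfold e; omega
      have q2 : e b = 2 * (b / 3) := by unfold e; omega
      have ht : tt w a = w (e a) := by rw [(d1 r h1).2.1, q1]
      have ht' : tt w b = w (e b) := by rw [(d0 r h2).2.1, q2]
      have hcs : cos (tt w a) = cos (tt w b) ∧ sin (tt w a) = sin (tt w b) := by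
        rcases h4 with h4 | h4
        · rw [ht, ht', h4, ← hx]; exact ⟨rfl, rfl⟩
        · have := G.per (e b)
          rw [h4] at this
          rw [ht, ht', hx, this]; simp
      refine ⟨hcs.1, hcs.2, by rw [hcs.1, hcs.2], Or.inl ?_⟩
      rw [(d1 r h1).2.2.1, (d0 r h2).2.2.1]
  · obtain ⟨h1, h2, h3, h4⟩ := h
    rcases (G.le (e b)).lt_or_eq with hx | hx
    · right; left; exact cB.2.2 _ hx (by unfold gB hB; omega) h3
    · right; right
      have q1 : e a = 2 * (a / 3) := by unfold e; omega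
      have q2 : e b = 2 * (b / 3) + 1 := by unfold e; omega
      have ht : tt w a = w (e a) := by rw [(d0 r h1).2.1, q1]
      have ht' : tt w b = w (e b) := by rw [(d1 r h2).2.1, q2]
      have hcs : cos (tt w a) = cos (tt w b) ∧ sin (tt w a) = sin (tt w b) := by
        rcases h4 with h4 | h4
        · rw [ht, ht', h4, ← hx]; exact ⟨rfl, rfl⟩
        · have := G.per (e a)
          rw [h4] at this
          rw [ht, ht', hx, this]; simp
      refine ⟨hcs.1, hcs.2, by rw [hcs.1, hcs.2], Or.inr ?_⟩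
      rw [(d1 r h2).2.2.1, (d0 r h1).2.2.1]

theorem core (hMIX : S_MIX) (G : Good w) {K : Set Plane} (hK : IsCompact K) (hC : Convex ℝ K)
    {r : ℝ} (hr : 0 < r) (hBall : Metric.closedBall 0 r ⊆ K)
    (hP : ∀ k < 3, vx w r (2 * k) (2 * k + 1) ∈ K) (M : ℕ → ℝ)
    (hM : ∀ i < 9, ∃ x ∈ K, M i ≤ D (tt w i) x) :
    ENNReal.ofReal (∑ i : Fin 9, (be w r i - al w r i) * M i / 2) ≤ volume K := by
  classical
  have h0 : (0 : Plane) ∈ K := hBall (by simp [hr.le])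
  have hF : ∀ u : ℝ × ℝ, ∃ q ∈ K, ∀ x ∈ K, u.1 * x 0 + u.2 * x 1 ≤ u.1 * q 0 + u.2 * q 1 := by
    intro u
    obtain ⟨q, hq, hq'⟩ := hK.exists_isMaxOn ⟨0, h0⟩
      (f := fun x : Plane => u.1 * x 0 + u.2 * x 1) (by fun_prop)
    exact ⟨q, hq, fun x hx => hq' hx⟩
  choose F hFK hFm using hF
  let I := {i : Fin 9 // al w r i < be w r i}
  let n := Fintype.card I
  let ε : Fin n ≃ I := (Fintype.equivFin I).symm
  have hmA : ∀ i < 9, vx w r (gA i) (hA i) ∈ K := fun i hi => vx_mem G hr hBall hP (by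
    by_cases h : i % 3 = 1
    · right; exact ⟨i / 3, by omega, by unfold gA; omega, by unfold hA; omega⟩
    · left; unfold gA hA; omega)
  have hmB : ∀ i < 9, vx w r (gB i) (hB i) ∈ K := fun i hi => vx_mem G hr hBall hP (by
    by_cases h : i % 3 = 0
    · right; exact ⟨i / 3, by omega, by unfold gB; omega, by unfold hB; omega⟩
    · left; unfold gB hB; omega)
  have key := hMIX n K hK hC h0 (fun i => tt w (ε i).1) (fun i => r * cos (et w (ε i).1))
    (fun i => al w r (ε i).1) (fun i => be w r (ε i).1)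
    (fun i => F (cos (tt w (ε i).1), sin (tt w (ε i).1)))
    (fun i => ⟨hFK _, fun x hx => hFm (cos (tt w (ε i).1), sin (tt w (ε i).1)) x hx⟩)
    (fun i => ⟨mul_pos hr (cos_pos_of_mem_Ioo
      ⟨by have := et_nonneg G (ε i).1; have := pi_pos; linarith, et_lt G _⟩), (ε i).2,
      by rw [endA G]; exact hmA _ (ε i).1.2, by rw [endB G]; exact hmB _ (ε i).1.2⟩)
    (fun i j => ⟨by
      rw [endA G]
      exact (cmp G hr (by unfold gA hA; omega) (winA _ (ε i).1.2 _ (ε j).1.2)).1, by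
      rw [endB G]
      exact (cmp G hr (by unfold gB hB; omega) (winB _ (ε i).1.2 _ (ε j).1.2)).1⟩)
    (fun i j hij => by
      simp only [endA G, endB G]
      exact pairs G hr F (ε i).1.2 (ε j).1.2
        (fun h => hij (ε.injective (Subtype.ext (Fin.ext h)))) (ε i).2 (ε j).2)
  refine le_trans (ENNReal.ofReal_le_ofReal ?_) key
  have e1 : ∑ i : Fin n, (be w r (ε i).1 - al w r (ε i).1) *
      D (tt w (ε i).1) (F (cos (tt w (ε i).1), sin (tt w (ε i).1))) / 2 =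
      ∑ i : I, (be w r i.1 - al w r i.1) *
      D (tt w i.1) (F (cos (tt w i.1), sin (tt w i.1))) / 2 :=
    Equiv.sum_comp ε (fun i : I => (be w r i.1 - al w r i.1) *
      D (tt w i.1) (F (cos (tt w i.1), sin (tt w i.1))) / 2)
  have e2 : ∑ i : I, (be w r i.1 - al w r i.1) *
      D (tt w i.1) (F (cos (tt w i.1), sin (tt w i.1))) / 2 =
      ∑ i ∈ Finset.univ.filter (fun i : Fin 9 => al w r i < be w r i),
      (be w r i - al w r i) * D (tt w i) (F (cos (tt w i), sin (tt w i))) / 2 :=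
    (Finset.sum_subtype (Finset.univ.filter (fun i : Fin 9 => al w r i < be w r i)) (by simp)
      (fun i : Fin 9 => (be w r i - al w r i) *
        D (tt w i) (F (cos (tt w i), sin (tt w i))) / 2)).symm
  rw [e1, e2, Finset.sum_filter]
  apply Finset.sum_le_sum
  intro i _
  split_ifs with h
  · obtain ⟨x, hx, hx'⟩ := hM i i.2
    have h3 := hFm (cos (tt w i), sin (tt w i)) x hx
    have h4 : M i ≤ D (tt w i) (F (cos (tt w i), sin (tt w i))) := hx'.trans h3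
    have h5 := mul_le_mul_of_nonneg_left h4 (sub_nonneg.2 h.le)
    linarith
  · have : be w r i = al w r i := le_antisymm (not_lt.1 h) (al_le_be G hr _)
    rw [this]; simp

end core

/-- the sequence -/
noncomputable def W (a₁ b₁ a₂ b₂ a₃ b₃ : ℝ) : ℕ → ℝ
  | 0 => a₁
  | 1 => b₁
  | 2 => a₂
  | 3 => b₂
  | 4 => a₃
  | 5 => b₃
  | n + 6 => W a₁ b₁ a₂ b₂ a₃ b₃ n + 2 * π

theorem W_step {a₁ b₁ a₂ b₂ a₃ b₃ : ℝ} (h1 : a₁ < b₁) (h2 : b₁ ≤ a₂) (h3 : a₂ < b₂)
    (h4 : b₂ ≤ a₃) (h5 : a₃ < b₃) (h6 : b₃ ≤ a₁ + 2 * π) (g1 : b₁ < a₁ + π) (g2 : a₂ < b₁ + π)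
    (g3 : b₂ < a₂ + π) (g4 : a₃ < b₂ + π) (g5 : b₃ < a₃ + π) (g6 : a₁ + 2 * π < b₃ + π) :
    ∀ n, W a₁ b₁ a₂ b₂ a₃ b₃ n ≤ W a₁ b₁ a₂ b₂ a₃ b₃ (n + 1) ∧
      (n % 2 = 0 → W a₁ b₁ a₂ b₂ a₃ b₃ n < W a₁ b₁ a₂ b₂ a₃ b₃ (n + 1)) ∧
      W a₁ b₁ a₂ b₂ a₃ b₃ (n + 1) < W a₁ b₁ a₂ b₂ a₃ b₃ n + π
  | 0 => ⟨h1.le, fun _ => h1, g1⟩
  | 1 => ⟨h2, fun h => absurd h (by norm_num), g2⟩
  | 2 => ⟨h3.le, fun _ => h3, g3⟩
  | 3 => ⟨h4, fun h => absurd h (by norm_num), g4⟩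
  | 4 => ⟨h5.le, fun _ => h5, g5⟩
  | 5 => ⟨h6, fun h => absurd h (by norm_num), g6⟩
  | n + 6 => by
    obtain ⟨q1, q2, q3⟩ := W_step h1 h2 h3 h4 h5 h6 g1 g2 g3 g4 g5 g6 n
    have e1 : W a₁ b₁ a₂ b₂ a₃ b₃ (n + 6) = W a₁ b₁ a₂ b₂ a₃ b₃ n + 2 * π := rfl
    have e2 : W a₁ b₁ a₂ b₂ a₃ b₃ (n + 6 + 1) = W a₁ b₁ a₂ b₂ a₃ b₃ (n + 1) + 2 * π := rfl
    rw [e1, e2]
    refine ⟨by linarith, fun h => ?_, by linarith⟩
    have := q2 (by omega)
    linarith

theorem t_NINE : S_MIX → S_NINE := by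
  intro hMIX K r d₁ d₂ d₃ p₁ p₂ p₃ γ₁ γ₂ γ₃ hK hC hr hBall F1 F2 F3 o1 o2 o3 e1 e2 e3
    m₁ n₁ m₂ n₂ m₃ n₃ k1 k2 k3 k4 k5 k6
  obtain ⟨f1, f1', f1c, f1K⟩ := F1
  obtain ⟨f2, f2', f2c, f2K⟩ := F2
  obtain ⟨f3, f3', f3c, f3K⟩ := F3
  have hpi := pi_pos
  have hst := W_step (a₁ := p₁ - γ₁) (b₁ := p₁ + γ₁) (a₂ := p₂ - γ₂) (b₂ := p₂ + γ₂)
    (a₃ := p₃ - γ₃) (b₃ := p₃ + γ₃) (by linarith) o1 (by linarith) o2 (by linarith)
    o3 (by linarith) (by unfold eta at e1; linarith) (by linarith)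
    (by unfold eta at e2; linarith) (by linarith) (by unfold eta at e3; linarith)
  have G : Good (W (p₁ - γ₁) (p₁ + γ₁) (p₂ - γ₂) (p₂ + γ₂) (p₃ - γ₃) (p₃ + γ₃)) :=
    ⟨fun n => rfl, fun n => (hst n).1, fun n => (hst n).2.1, fun n => (hst n).2.2⟩
  have w0 : W (p₁ - γ₁) (p₁ + γ₁) (p₂ - γ₂) (p₂ + γ₂) (p₃ - γ₃) (p₃ + γ₃) 0 = p₁ - γ₁ := rfl
  have w1 : W (p₁ - γ₁) (p₁ + γ₁) (p₂ - γ₂) (p₂ + γ₂) (p₃ - γ₃) (p₃ + γ₃) 1 = p₁ + γ₁ := rfl
  have w2 : W (p₁ - γ₁) (p₁ + γ₁) (p₂ - γ₂) (p₂ + γ₂) (p₃ - γ₃) (p₃ + γ₃) 2 = p₂ - γ₂ := rfl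
  have w3 : W (p₁ - γ₁) (p₁ + γ₁) (p₂ - γ₂) (p₂ + γ₂) (p₃ - γ₃) (p₃ + γ₃) 3 = p₂ + γ₂ := rfl
  have w4 : W (p₁ - γ₁) (p₁ + γ₁) (p₂ - γ₂) (p₂ + γ₂) (p₃ - γ₃) (p₃ + γ₃) 4 = p₃ - γ₃ := rfl
  have w5 : W (p₁ - γ₁) (p₁ + γ₁) (p₂ - γ₂) (p₂ + γ₂) (p₃ - γ₃) (p₃ + γ₃) 5 = p₃ + γ₃ := rfl
  have w6 : W (p₁ - γ₁) (p₁ + γ₁) (p₂ - γ₂) (p₂ + γ₂) (p₃ - γ₃) (p₃ + γ₃) 6 =
    p₁ - γ₁ + 2 * π := rfl
  generalize W (p₁ - γ₁) (p₁ + γ₁) (p₂ - γ₂) (p₂ + γ₂) (p₃ - γ₃) (p₃ + γ₃) = w at *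
  have hc1 : 0 < cos γ₁ := cos_pos_of_mem_Ioo ⟨by linarith, f1'⟩
  have hc2 : 0 < cos γ₂ := cos_pos_of_mem_Ioo ⟨by linarith, f2'⟩
  have hc3 : 0 < cos γ₃ := cos_pos_of_mem_Ioo ⟨by linarith, f3'⟩
  have hd1 : r / cos γ₁ = d₁ := by rw [← f1c]; field_simp
  have hd2 : r / cos γ₂ = d₂ := by rw [← f2c]; field_simp
  have hd3 : r / cos γ₃ = d₃ := by rw [← f3c]; field_simp
  have g01 : (w 1 - w 0) / 2 = γ₁ := by rw [w0, w1]; ring
  have g23 : (w 3 - w 2) / 2 = γ₂ := by rw [w2, w3]; ring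
  have g45 : (w 5 - w 4) / 2 = γ₃ := by rw [w4, w5]; ring
  have hP : ∀ k < 3, vx w r (2 * k) (2 * k + 1) ∈ K := by
    intro k hk
    interval_cases k
    · show pol (r / cos ((w 1 - w 0) / 2)) ((w 0 + w 1) / 2) ∈ K
      rw [g01, hd1, w0, w1]
      convert f1K using 2; ring
    · show pol (r / cos ((w 3 - w 2) / 2)) ((w 2 + w 3) / 2) ∈ K
      rw [g23, hd2, w2, w3]
      convert f2K using 2; ring
    · show pol (r / cos ((w 5 - w 4) / 2)) ((w 4 + w 5) / 2) ∈ K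
      rw [g45, hd3, w4, w5]
      convert f3K using 2; ring
  have hr' : ∀ t : ℝ, ∃ x ∈ K, r ≤ D t x := fun t =>
    ⟨pol r t, pol_mem hr hBall t, by rw [D_pol]; simp⟩
  have key := core hMIX G hK hC hr hBall hP
    (fun i => match i with
      | 0 => r + m₁ | 1 => r + n₁ | 3 => r + m₂ | 4 => r + n₂ | 6 => r + m₃ | 7 => r + n₃
      | _ => r) (by
    intro i hi
    interval_cases i
    · show ∃ x ∈ K, r + m₁ ≤ D (tt w 0) x
      rw [(d0 r (i := 0) rfl).2.1]; show ∃ x ∈ K, r + m₁ ≤ D (w 0) x; rw [w0]; exact k1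
    · show ∃ x ∈ K, r + n₁ ≤ D (tt w 1) x
      rw [(d1 r (i := 1) rfl).2.1]; show ∃ x ∈ K, r + n₁ ≤ D (w 1) x; rw [w1]; exact k2
    · exact hr' _
    · show ∃ x ∈ K, r + m₂ ≤ D (tt w 3) x
      rw [(d0 r (i := 3) rfl).2.1]; show ∃ x ∈ K, r + m₂ ≤ D (w 2) x; rw [w2]; exact k3
    · show ∃ x ∈ K, r + n₂ ≤ D (tt w 4) x
      rw [(d1 r (i := 4) rfl).2.1]; show ∃ x ∈ K, r + n₂ ≤ D (w 3) x; rw [w3]; exact k4
    · exact hr' _
    · show ∃ x ∈ K, r + m₃ ≤ D (tt w 6) x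
      rw [(d0 r (i := 6) rfl).2.1]; show ∃ x ∈ K, r + m₃ ≤ D (w 4) x; rw [w4]; exact k5
    · show ∃ x ∈ K, r + n₃ ≤ D (tt w 7) x
      rw [(d1 r (i := 7) rfl).2.1]; show ∃ x ∈ K, r + n₃ ≤ D (w 5) x; rw [w5]; exact k6
    · exact hr' _)
  refine le_trans (ENNReal.ofReal_le_ofReal (le_of_eq ?_)) key
  rw [Fin.sum_univ_eq_sum_range (fun i => (be w r i - al w r i) * (match i with
      | 0 => r + m₁ | 1 => r + n₁ | 3 => r + m₂ | 4 => r + n₂ | 6 => r + m₃ | 7 => r + n₃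
      | _ => r) / 2) 9]
  simp only [Finset.sum_range_succ, Finset.sum_range_zero]
  have v0 : be w r 0 - al w r 0 = d₁ * sin γ₁ := by
    rw [(d0 r (i := 0) rfl).2.2.1, (d0 r (i := 0) rfl).2.2.2]
    show r / cos ((w 1 - w 0) / 2) * sin ((w 1 - w 0) / 2) - 0 = _
    rw [g01, hd1]; ring
  have v1 : be w r 1 - al w r 1 = d₁ * sin γ₁ := by
    rw [(d1 r (i := 1) rfl).2.2.1, (d1 r (i := 1) rfl).2.2.2]
    show 0 - -(r / cos ((w 1 - w 0) / 2) * sin ((w 1 - w 0) / 2)) = _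
    rw [g01, hd1]; ring
  have v3 : be w r 3 - al w r 3 = d₂ * sin γ₂ := by
    rw [(d0 r (i := 3) rfl).2.2.1, (d0 r (i := 3) rfl).2.2.2]
    show r / cos ((w 3 - w 2) / 2) * sin ((w 3 - w 2) / 2) - 0 = _
    rw [g23, hd2]; ring
  have v4 : be w r 4 - al w r 4 = d₂ * sin γ₂ := by
    rw [(d1 r (i := 4) rfl).2.2.1, (d1 r (i := 4) rfl).2.2.2]
    show 0 - -(r / cos ((w 3 - w 2) / 2) * sin ((w 3 - w 2) / 2)) = _
    rw [g23, hd2]; ring
  have v6 : be w r 6 - al w r 6 = d₃ * sin γ₃ := by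
    rw [(d0 r (i := 6) rfl).2.2.1, (d0 r (i := 6) rfl).2.2.2]
    show r / cos ((w 5 - w 4) / 2) * sin ((w 5 - w 4) / 2) - 0 = _
    rw [g45, hd3]; ring
  have v7 : be w r 7 - al w r 7 = d₃ * sin γ₃ := by
    rw [(d1 r (i := 7) rfl).2.2.1, (d1 r (i := 7) rfl).2.2.2]
    show 0 - -(r / cos ((w 5 - w 4) / 2) * sin ((w 5 - w 4) / 2)) = _
    rw [g45, hd3]; ring
  have t2 : et w 2 = eta p₁ γ₁ p₂ γ₂ := by
    rw [(d2 r (i := 2) rfl).1]; show (w 2 - w 1) / 2 = _; rw [w1, w2]; rfl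
  have t5 : et w 5 = eta p₂ γ₂ p₃ γ₃ := by
    rw [(d2 r (i := 5) rfl).1]; show (w 4 - w 3) / 2 = _; rw [w3, w4]; rfl
  have t8 : et w 8 = eta p₃ γ₃ (p₁ + 2 * π) γ₁ := by
    rw [(d2 r (i := 8) rfl).1]; show (w 6 - w 5) / 2 = _; rw [w5, w6]; unfold eta; ring
  have v2 : be w r 2 - al w r 2 = 2 * (r * sin (eta p₁ γ₁ p₂ γ₂)) := by
    rw [(d2 r (i := 2) rfl).2.1, (d2 r (i := 2) rfl).2.2, t2]; ring
  have v5 : be w r 5 - al w r 5 = 2 * (r * sin (eta p₂ γ₂ p₃ γ₃)) := by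
    rw [(d2 r (i := 5) rfl).2.1, (d2 r (i := 5) rfl).2.2, t5]; ring
  have v8 : be w r 8 - al w r 8 = 2 * (r * sin (eta p₃ γ₃ (p₁ + 2 * π) γ₁)) := by
    rw [(d2 r (i := 8) rfl).2.1, (d2 r (i := 8) rfl).2.2, t8]; ring
  simp only [v0, v1, v2, v3, v4, v5, v6, v7, v8]
  ring

end Pool.Agent.V7H24.LB
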